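import Pool.Agent.Lib.MP_bf91d6_an.L1
import Pool.Agent.Lib.MP_bf91d6_an.L2
import Pool.Agent.Lib.MP_bf91d6_an.C2c

set_option autoImplicit false

namespace Pool.Agent.Results.MP_bf91d6_an.Cyclicity

open Pool.Agent.Lib.MP_bf91d6_an

/-- The largest cyclicity of a homoclinic loop (of a hyperbolic saddle) of a quadratic system,
within the quadratic family, is two. -/
theorem result : Nbif = 2 :=
  Nbif_of (fun h h2 => core2 h h2)
    (fun h h1 h2 hu hv hp _ _ he hr => two_orbits h h1 h2 hu hv hp he hr)

end Pool.Agent.Results.MP_bf91d6_an.Cyclicity
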