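import Pool.Agent.Lib.MP_bf91d6_an.Mel.Main

set_option autoImplicit false

namespace Pool.Agent.Results.MP_bf91d6_an.MelnikovChebyshev

open Pool.Agent.Lib.MP_bf91d6_an.Mel

/-- For the reversible quadratic centre `x' = y (1 + n x)`, `y' = x - x ^ 2 + C y ^ 2` whose period
annulus ends at the homoclinic loop of the saddle `(0, 0)`: every first Melnikov integral of a
quadratic perturbation that does not vanish on all ovals vanishes on at most two ovals, the loop
included, if and only if `3 C ≤ 5 + 6 n`. -/
theorem result (n C : ℝ) (hloop : ∃ z, IsOval n C 0 z) :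
    (∀ c : Fin 12 → ℝ, (∃ x z, IsOval n C x z ∧ melnikov n C c x z ≠ 0) →
      {x | ∃ z, IsOval n C x z ∧ melnikov n C c x z = 0}.encard ≤ 2) ↔ 3 * C ≤ 5 + 6 * n :=
  main hloop

end Pool.Agent.Results.MP_bf91d6_an.MelnikovChebyshev
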